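import Pool.Agent.helper16.CVL.SpecD
import Pool.Agent.helper16.CVL.VAL

/-!
# cvd:CRT (helper72): critical points of the limit of one step come from critical points of `f`
-/

set_option autoImplicit false

open Complex Metric Set Filter Topology MeasureTheory
open HY (UD T S hd UN RM)
open RT (Dyn it Hon PB VC Lv UC TD rm lf cr pd bl gr hdf Lf IB)
open RB (VL LO FLS FL CLS FR TL TLL INN)
open PL (DK ht tr SUBH INR)
open CVL

noncomputable section

namespace CVD

theorem CRT (hNRM : CVL.NRM_stmt) (hFRB : CVL.FRB_stmt) (hCPK : CVL.CPK_stmt) (hMPF : CVL.MPF_stmt) (hDGN : CVL.DGN_stmt)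
    (hTHU : V3.THU_stmt) : CRT_stmt := by
  intro Y s hS U W W' x x' χ χ' B hWD hT hnc e he hBe
  obtain ⟨-, -, -, -, -, -, hop, hpre, -, -⟩ := hFRB s U W x χ hT.fr
  obtain ⟨hGd, -, hhol, hder, -⟩ := hMPF s U W W' x x' χ χ' (fun _ => Y.f) B hT
  obtain ⟨r₀, hr₀, hr₀s⟩ := Metric.isOpen_iff.1 hop e he
  have hr1 : 0 < r₀ / 2 := by positivity
  have hK : closedBall e (r₀ / 2) ⊆ χ '' UD := (closedBall_subset_ball (by linarith)).trans hr₀s
  have hd := hhol (closedBall e (r₀ / 2)) hK (isCompact_closedBall _ _)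
  have hd' : ∀ᶠ j in (U : Filter ℕ), DifferentiableOn ℂ (deriv (GN (W j) (W' j) (x j) (x' j) Y.f)) (closedBall e (r₀ / 2)) := by
    filter_upwards [hd] with j hj
    obtain ⟨O, h1, h2, h3⟩ := hj
    exact (h3.deriv h1).mono h2
  have hnz : ∃ z ∈ ball e (r₀ / 2), deriv B z ≠ 0 := by
    by_contra hcon
    push Not at hcon
    have hA : AnalyticOnNhd ℂ (deriv B) (χ '' UD) := (hGd.deriv hop).analyticOnNhd hop
    have hev : deriv B =ᶠ[𝓝 e] fun _ => (0 : ℂ) := by
      filter_upwards [ball_mem_nhds e hr1] with z hz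
      exact hcon z hz
    have heq := hA.eqOn_of_preconnected_of_eventuallyEq (analyticOnNhd_const) hpre he hev
    obtain ⟨z, hz, hz'⟩ := hnc
    exact hz' (heq hz)
  have hz := hTHU U (fun j => deriv (GN (W j) (W' j) (x j) (x' j) Y.f)) (deriv B) e (r₀ / 2) hr1
    (by
      filter_upwards [hd'] with j hj
      exact hj.mono ball_subset_closedBall) (hder.mono (ball_subset_closedBall.trans hK)) hBe hnz
  obtain ⟨ζ, h1, h2⟩ := CVL.VAL_ch U (fun j => deriv (GN (W j) (W' j) (x j) (x' j) Y.f)) (fun _ => 0) e (r₀ / 2) hr1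
    (by
      filter_upwards [hd'] with j hj
      exact hj.continuousOn) (by
      intro ε hε
      filter_upwards [hz ε hε] with j hj
      obtain ⟨z, hz1, hz2⟩ := hj
      exact ⟨z, hz1, by rw [hz2, sub_zero]⟩)
  have hev : ∀ᶠ j in (U : Filter ℕ), ∃ c ∈ (Y.CP : Set ℂ), PT (W j) (x j) (ζ j) = c ∧ c ∈ W j ∧ CO (W j) (x j) c = ζ j := by
    filter_upwards [h2, hCPK s U W x χ hT.fr _ hK (isCompact_closedBall _ _), hT.fr.td, hT.fr'.td, hT.map, hWD] with j h3 h4 h5 h6 h7 h8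
    have h9 : PT (W j) (x j) (ζ j) ∈ W j := h4 h3.1
    have h10 := ((hDGN s (W j) (W' j) (x j) (x' j) Y.f h5.1 h6.1 h5.2 h6.2 h7.1 (ζ j) h9).2).1 h3.2
    have h11 := (hS.ok.cri _ (h8 h9)).1 h10
    obtain ⟨-, -, -, -, -, -, -, h12, -⟩ := hNRM s (W j) (x j) h5.1 h5.2
    exact ⟨_, h11, rfl, h9, h12 (ζ j)⟩
  rw [Ultrafilter.eventually_exists_mem_iff (Finset.finite_toSet _)] at hev
  obtain ⟨c, hc, hev⟩ := hev
  refine ⟨c, hc, ?_, ?_⟩
  · filter_upwards [hev] with j hj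
    exact hj.2.1
  · apply h1.congr'
    filter_upwards [hev] with j hj
    exact hj.2.2.symm

end CVD
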